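import Pool.Agent.helper82.CH.SpecA

/-!
# Row ch:TRV (MP_2e0e07_nt): Frobenius elements generate the Galois group of a cyclotomic extension
-/

set_option autoImplicit false

open NumberField Complex Pool.Agent.UN

namespace Pool.Agent.CH

theorem TRV_cyc {F M : Type} [Field F] [Field M] [Algebra F M] (m : ℕ) (z : M) (hm : 0 < m) (hz : IsPrimitiveRoot z m)
    (hadj : Algebra.adjoin F {z} = ⊤) : IsCyclotomicExtension {m} F M := by
  refine (IsCyclotomicExtension.iff_adjoin_eq_top _ _ _).2 ⟨?_, ?_⟩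
  · intro n hn _
    rw [Set.mem_singleton_iff] at hn
    subst hn
    exact ⟨z, hz⟩
  · rw [eq_top_iff, ← hadj]
    apply Algebra.adjoin_mono
    intro y hy
    rw [Set.mem_singleton_iff] at hy
    subst hy
    exact ⟨m, rfl, hm.ne', hz.pow_eq_one⟩

theorem TRV_fin (D : ℕ) (hD : 0 < D) : {p : Nat.Primes | (p : ℕ) ∣ D}.Finite := by
  apply Set.Finite.of_injOn (f := fun p : Nat.Primes => (p : ℕ)) (t := ((D.divisors : Finset ℕ) : Set ℕ))
  · intro p hp
    simp only [Finset.mem_coe, Nat.mem_divisors]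
    exact ⟨hp, hD.ne'⟩
  · intro p _ q _ h
    exact Subtype.ext h
  · exact Finset.finite_toSet _

theorem TRV_an (hKFV : KFV_stmt) (K1 K2 : Type) [Field K1] [NumberField K1] [Field K2] [NumberField K2] (d D : ℕ)
    (hD : 0 < D) (h : ∀ p : ℕ, p.Prime → ¬ p ∣ D → d * nd K1 p ≤ nd K2 p) : d ≤ 1 := by
  by_contra hcon
  have hd : (2 : ℝ) ≤ d := by
    have : 2 ≤ d := by omega
    exact_mod_cast this
  obtain ⟨C1, δ1, hδ1, h1⟩ := hKFV K1
  obtain ⟨C2, δ2, hδ2, h2⟩ := hKFV K2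
  classical
  set S : Finset Nat.Primes := (TRV_fin D hD).toFinset with hS
  set K : ℝ := ∑ p ∈ S, ((d : ℝ) * (nd K1 p : ℝ)) with hK
  have hmin : 0 < min δ1 δ2 := lt_min hδ1 hδ2
  set T : ℝ := max ((d : ℝ) * C1 + C2 + K + 1) (max 0 (1 - Real.log (min δ1 δ2))) with hT
  have hT1 : (d : ℝ) * C1 + C2 + K + 1 ≤ T := le_max_left _ _
  have hT2 : 0 ≤ T := (le_max_left _ _).trans (le_max_right _ _)
  have hT3 : 1 - Real.log (min δ1 δ2) ≤ T := (le_max_right _ _).trans (le_max_right _ _)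
  have hexp : Real.exp (-T) < min δ1 δ2 := by
    have h3 : Real.exp (-T) ≤ Real.exp (Real.log (min δ1 δ2) - 1) := Real.exp_le_exp.2 (by linarith)
    have h4 : Real.exp (Real.log (min δ1 δ2) - 1) < Real.exp (Real.log (min δ1 δ2)) :=
      Real.exp_lt_exp.2 (by linarith)
    rw [Real.exp_log hmin] at h4
    linarith
  set s : ℝ := 1 + Real.exp (-T) with hs
  have hs1 : 1 < s := by
    have := Real.exp_pos (-T)
    linarith
  have hlog : Real.log (s - 1) = -T := by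
    have : s - 1 = Real.exp (-T) := by rw [hs]; ring
    rw [this, Real.log_exp]
  obtain ⟨m1, b1⟩ := h1 s hs1 (by rw [hs]; linarith [min_le_left δ1 δ2])
  obtain ⟨m2, b2⟩ := h2 s hs1 (by rw [hs]; linarith [min_le_right δ1 δ2])
  rw [hlog, abs_le] at b1 b2
  set A1 : ℝ := ∑' p : Nat.Primes, (nd K1 p : ℝ) * ((p : ℕ) : ℝ) ^ (-s) with hA1
  set A2 : ℝ := ∑' p : Nat.Primes, (nd K2 p : ℝ) * ((p : ℕ) : ℝ) ^ (-s) with hA2
  let g : Nat.Primes → ℝ := fun p => if p ∈ S then (d : ℝ) * (nd K1 p : ℝ) else 0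
  have hg1 : Summable g := summable_of_ne_finset_zero (s := S) (fun p hp => by
    show (if p ∈ S then (d : ℝ) * (nd K1 p : ℝ) else 0) = 0
    rw [if_neg hp])
  have hg2 : ∑' p, g p = K := by
    rw [tsum_eq_sum (s := S) (fun p hp => by
      show (if p ∈ S then (d : ℝ) * (nd K1 p : ℝ) else 0) = 0
      rw [if_neg hp]), hK]
    refine Finset.sum_congr rfl fun p hp => ?_
    show (if p ∈ S then (d : ℝ) * (nd K1 p : ℝ) else 0) = _
    rw [if_pos hp]
  have hle : ∑' p : Nat.Primes, (d : ℝ) * ((nd K1 p : ℝ) * ((p : ℕ) : ℝ) ^ (-s)) ≤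
      ∑' p : Nat.Primes, ((nd K2 p : ℝ) * ((p : ℕ) : ℝ) ^ (-s) + g p) := by
    refine Summable.tsum_le_tsum (fun p => ?_) (m1.mul_left _) (m2.add hg1)
    have hp0 : (0 : ℝ) < ((p : ℕ) : ℝ) := by exact_mod_cast p.2.pos
    have hpow : 0 ≤ ((p : ℕ) : ℝ) ^ (-s) := Real.rpow_nonneg hp0.le _
    have hpow1 : ((p : ℕ) : ℝ) ^ (-s) ≤ 1 := by
      apply Real.rpow_le_one_of_one_le_of_nonpos
      · exact_mod_cast p.2.one_lt.le
      · linarith
    show _ ≤ _ + (if p ∈ S then (d : ℝ) * (nd K1 p : ℝ) else 0)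
    by_cases hp : p ∈ S
    · rw [if_pos hp]
      have e1 : 0 ≤ (nd K2 p : ℝ) * ((p : ℕ) : ℝ) ^ (-s) := mul_nonneg (Nat.cast_nonneg _) hpow
      have e2 : (nd K1 p : ℝ) * ((p : ℕ) : ℝ) ^ (-s) ≤ nd K1 p := mul_le_of_le_one_right (Nat.cast_nonneg _) hpow1
      have e3 : (d : ℝ) * ((nd K1 p : ℝ) * ((p : ℕ) : ℝ) ^ (-s)) ≤ d * nd K1 p :=
        mul_le_mul_of_nonneg_left e2 (Nat.cast_nonneg _)
      linarith
    · rw [if_neg hp, add_zero]
      have hnd : ¬ (p : ℕ) ∣ D := by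
        intro hdvd
        apply hp
        rw [hS, Set.Finite.mem_toFinset]
        exact hdvd
      have e1 : ((d * nd K1 p : ℕ) : ℝ) ≤ ((nd K2 p : ℕ) : ℝ) := by exact_mod_cast h p p.2 hnd
      rw [Nat.cast_mul] at e1
      calc (d : ℝ) * ((nd K1 p : ℝ) * ((p : ℕ) : ℝ) ^ (-s)) = (d * nd K1 p : ℝ) * ((p : ℕ) : ℝ) ^ (-s) := by ring
        _ ≤ (nd K2 p : ℝ) * ((p : ℕ) : ℝ) ^ (-s) := mul_le_mul_of_nonneg_right e1 hpow
  rw [tsum_mul_left, Summable.tsum_add m2 hg1, hg2] at hle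
  have hdA : (d : ℝ) * (T - C1) ≤ d * A1 := by
    apply mul_le_mul_of_nonneg_left _ (Nat.cast_nonneg _)
    linarith [b1.1]
  have e5 : (d : ℝ) * T ≥ 2 * T := mul_le_mul_of_nonneg_right hd hT2
  have e6 : (d : ℝ) * (T - C1) = d * T - d * C1 := by ring
  linarith [b2.2]

theorem TRV (hSPL : SPL_stmt) (hKFV : KFV_stmt) : TRV_stmt := by
  intro F M _ _ _ _ _ m z ψ hm hz hadj hT g r hg
  have : NeZero m := ⟨hm.ne'⟩
  have hcyc : IsCyclotomicExtension {m} F M := TRV_cyc m z hm hz hadj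
  have : FiniteDimensional F M := IsCyclotomicExtension.finiteDimensional {m} F M
  have : IsGalois F M := IsCyclotomicExtension.isGalois {m} F M
  let κ : (M ≃ₐ[F] M) →* (ZMod m)ˣ := hz.autToPow F
  let U : Subgroup (M ≃ₐ[F] M) := (ψ.toUnitHom.comp κ).ker
  have key : ∀ (g : M ≃ₐ[F] M) (r : ℕ), g z = z ^ r → ((κ g : (ZMod m)ˣ) : ZMod m) = (r : ZMod m) := by
    intro g r hg
    have h1 : z ^ ((κ g : (ZMod m)ˣ) : ZMod m).val = z ^ r := by rw [hz.autToPow_spec F g, hg]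
    have hord : IsOfFinOrder z := isOfFinOrder_iff_pow_eq_one.2 ⟨m, hm, hz.pow_eq_one⟩
    have h2 := hord.pow_eq_pow_iff_modEq.1 h1
    rw [← hz.eq_orderOf] at h2
    have h3 := (ZMod.natCast_eq_natCast_iff _ _ _).2 h2
    rw [ZMod.natCast_zmod_val] at h3
    exact h3
  have hU : ∀ g : M ≃ₐ[F] M, g ∈ U ↔ ψ ((κ g : (ZMod m)ˣ) : ZMod m) = 1 := by
    intro g
    show g ∈ (ψ.toUnitHom.comp κ).ker ↔ _
    rw [MonoidHom.mem_ker, MonoidHom.comp_apply, ← Units.val_inj, MulChar.coe_toUnitHom, Units.val_one]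
  obtain ⟨D, hD, h1⟩ := hSPL F M m z ψ (IntermediateField.fixedField U) hm hz hadj hT (by
    intro g r hgz hψ x hx
    have hgU : g ∈ U := by rw [hU, key g r hgz]; exact hψ
    exact (IntermediateField.mem_fixedField_iff _ _).1 hx g hgU)
  have h2 := TRV_an hKFV F (IntermediateField.fixedField U) _ D hD h1
  have h3 : Module.finrank F (IntermediateField.fixedField U) * Module.finrank (IntermediateField.fixedField U) M =
      Module.finrank F M := Module.finrank_mul_finrank _ _ _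
  have h4 : Module.finrank (IntermediateField.fixedField U) M = Nat.card U :=
    IntermediateField.finrank_fixedField_eq_card U
  have h5 : Nat.card (M ≃ₐ[F] M) = Module.finrank F M := IsGalois.card_aut_eq_finrank F M
  have h6 : Nat.card (M ≃ₐ[F] M) ≤ Nat.card U := by
    rw [h5, ← h3, h4]
    calc Module.finrank F (IntermediateField.fixedField U) * Nat.card U ≤ 1 * Nat.card U := Nat.mul_le_mul_right _ h2
      _ = Nat.card U := one_mul _
  have h7 : U = ⊤ := Subgroup.eq_top_of_le_card _ h6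
  have h8 : g ∈ U := by rw [h7]; exact Subgroup.mem_top g
  rw [hU, key g r hg] at h8
  exact h8

end Pool.Agent.CH
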