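import Pool.Agent.helper82.CH.SpecE2
import Pool.Agent.helper82.CH.Ort

/-!
# Row che:ONE (MP_2e0e07_nt): the lower bound at `s = 1` for a system of L-functions
-/

set_option autoImplicit false

open Complex

namespace Pool.Agent.CHE

theorem ONE_ak {Y : Type} [CommGroup Y] [Fintype Y] (b : Y → ℕ → ℝ) :
    (fun k : ℕ => (((Fintype.card Y * b 1 k / Real.log k : ℝ)) : ℂ)) = ∑ χ : Y →* ℂˣ, fun k : ℕ => ak b χ k / (Real.log k : ℂ) := by
  funext k
  rw [Finset.sum_apply, ← Finset.sum_div, ORT_ak]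
  push_cast
  rfl

theorem ONE (hRSA : RSA_stmt) (hRSB : RSB_stmt) : ONE_stmt := by
  classical
  intro Y _ _ b E G hG hb hd hE hbd hz χ₀
  have hq : (1 : ℝ) ≤ Fintype.card Y := by exact_mod_cast Fintype.card_pos
  have hqG : 1 ≤ Fintype.card Y * G := by nlinarith
  let w : ℕ → ℝ := fun k => Fintype.card Y * b 1 k / Real.log k
  have hw : ∀ k, 0 ≤ w k := fun k =>
    div_nonneg (mul_nonneg (by positivity) (hb 1 k)) (Real.log_natCast_nonneg k)
  have hwf : (fun k : ℕ => (w k : ℂ)) = ∑ χ : Y →* ℂˣ, fun k : ℕ => ak b χ k / (Real.log k : ℂ) := ONE_ak b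
  have hsm : ∀ s : ℂ, 1 < s.re → LSeriesSummable (fun k => (w k : ℂ)) s := by
    intro s hs
    rw [hwf]
    exact LSeriesSummable.sum fun χ _ => (hE χ s hs).1
  obtain ⟨c, hc0, hc1, hc⟩ := hRSB w hw hsm
  have hcardr : (Finset.univ : Finset (Y →* ℂˣ)).card = Fintype.card Y := by
    rw [Finset.card_univ, ORT_card]
  have key := hRSA (fun s => ∏ χ : Y →* ℂˣ, E χ s) (fun s : ℂ => Complex.exp (LSeries (fun j => (w j : ℂ)) s)) c
    (Fintype.card Y * G) hqG (Differentiable.fun_finsetProd fun χ _ => hd χ)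
    (by
      intro s hs
      rw [norm_prod]
      calc ∏ χ : Y →* ℂˣ, ‖E χ s‖ ≤ ∏ _χ : Y →* ℂˣ, Real.exp G :=
            Finset.prod_le_prod (fun _ _ => norm_nonneg _) fun χ _ => hbd χ s hs
        _ = Real.exp (Fintype.card Y * G) := by
            rw [Finset.prod_const, hcardr, ← Real.exp_nat_mul])
    (Finset.prod_eq_zero (Finset.mem_univ 1) hz)
    (by
      intro s hs
      show ∏ χ : Y →* ℂˣ, E χ s = (s - 1) * Complex.exp (LSeries (fun j => (w j : ℂ)) s)
      rw [Finset.prod_congr rfl fun χ _ => (hE χ s hs).2, Finset.prod_mul_distrib, Finset.prod_ite_eq', if_pos (Finset.mem_univ _),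
        ← Complex.exp_sum, hwf, LSeries_sum fun χ _ => (hE χ s hs).1])
    hc0 hc1 hc
  have h1 : ‖∏ χ : Y →* ℂˣ, E χ 1‖ ≤ ‖E χ₀ 1‖ * Real.exp (Fintype.card Y * G) := by
    rw [norm_prod, ← Finset.mul_prod_erase Finset.univ (fun χ : Y →* ℂˣ => ‖E χ 1‖) (Finset.mem_univ χ₀)]
    refine mul_le_mul_of_nonneg_left ?_ (norm_nonneg _)
    calc ∏ χ ∈ Finset.univ.erase χ₀, ‖E χ 1‖ ≤ ∏ _χ ∈ Finset.univ.erase χ₀, Real.exp G :=
          Finset.prod_le_prod (fun _ _ => norm_nonneg _) fun χ _ => hbd χ 1 (by norm_num)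
      _ = Real.exp ((Finset.univ.erase χ₀).card * G) := by
          rw [Finset.prod_const, ← Real.exp_nat_mul]
      _ ≤ Real.exp (Fintype.card Y * G) := by
          refine Real.exp_le_exp.2 (mul_le_mul_of_nonneg_right ?_ (by linarith))
          have h2 : (Finset.univ.erase χ₀).card ≤ Fintype.card Y := by
            rw [← hcardr]
            exact Finset.card_le_card (Finset.erase_subset _ _)
          exact_mod_cast h2
  have h2 := key.trans h1
  have h3 : Real.exp (-(25 * Fintype.card Y * G)) * Real.exp (Fintype.card Y * G) = Real.exp (-(24 * (Fintype.card Y * G))) := by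
    rw [← Real.exp_add]
    congr 1
    ring
  rw [← h3] at h2
  exact le_of_mul_le_mul_right h2 (Real.exp_pos _)

end Pool.Agent.CHE

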