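import Pool.Agent.helper82.CH.SpecE
import Pool.Agent.helper82.CH.Ort

/-!
# Row che:SQ1 (MP_2e0e07_nt): the zeros near `1 + δ`
-/

set_option autoImplicit false

open Complex

namespace Pool.Agent.CHE

theorem SQ1_bound {Y : Type} [CommGroup Y] [Fintype Y] {C l : ℝ} {b : Y → ℕ → ℝ} {E : (Y →* ℂˣ) → ℂ → ℂ} (hS : Sys C l b E)
    (χ : Y →* ℂˣ) {K δ : ℝ} (hs : Summable (fun k : ℕ => VM k * (k : ℝ) ^ (-(1 + δ))))
    (hK : ∑' k : ℕ, VM k * (k : ℝ) ^ (-(1 + δ)) ≤ K / δ) : ‖LSeries (ak b χ) (1 + δ : ℂ)‖ ≤ C * (K / δ) := by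
  have hC : 0 ≤ C := by linarith [hS.C1]
  have h1 : HasSum (fun k : ℕ => C * (VM k * (k : ℝ) ^ (-(1 + δ)))) (C * ∑' k : ℕ, VM k * (k : ℝ) ^ (-(1 + δ))) :=
    hs.hasSum.mul_left C
  refine (tsum_of_norm_bounded h1 fun k => ?_).trans (mul_le_mul_of_nonneg_left hK hC)
  rw [LSeries.norm_term_eq]
  have hre : (1 + δ : ℂ).re = 1 + δ := by simp
  split_ifs with hk
  · subst hk
    have : VM 0 = 0 := by
      unfold VM
      simp
    rw [this, zero_mul, mul_zero]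
  · rw [hre, Real.rpow_neg (Nat.cast_nonneg k), ← div_eq_mul_inv, ← mul_div_assoc]
    refine div_le_div_of_nonneg_right ((ORT_aknorm b hS.nonneg χ k).trans (hS.bd k)) ?_
    exact Real.rpow_nonneg (Nat.cast_nonneg k) _

theorem SQ1 (hVMS : VMS_stmt) : SQ1_stmt := by
  intro C
  obtain ⟨K, hK1, hK⟩ := hVMS
  refine ⟨max 1 (C * K + 1 + 15000 * C), le_max_left _ _, ?_⟩
  intro Y _ _ l b E hS χ N ρ hZ δ hδ hδ1
  have hC := hS.C1
  have hl := hS.l1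
  obtain ⟨hsum, hbd⟩ := hK δ hδ hδ1
  have hre : (1 + δ : ℂ).re = 1 + δ := by simp
  have hform := hZ.form (1 + δ : ℂ) (by rw [hre]; linarith) (by
    have e : (1 + δ : ℂ) - (2 + ((0 : ℝ) : ℂ) * I) = ((δ - 1 : ℝ) : ℂ) := by
      push_cast
      ring
    rw [e, Complex.norm_real, Real.norm_eq_abs, abs_le]
    constructor <;> linarith) 0
  have hLb := SQ1_bound hS χ hsum hbd
  have e0 : (fun k : ℕ => ak b χ k * ((Real.log k : ℂ) ^ 0 / ((0 : ℕ).factorial : ℂ))) = ak b χ := by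
    funext k
    simp
  rw [e0] at hform
  simp only [zero_add, pow_one, Nat.cast_zero, mul_one] at hform
  have hdl : ‖dl χ / ((1 + δ : ℂ) - 1)‖ ≤ 1 / δ := by
    have e : (1 + δ : ℂ) - 1 = (δ : ℂ) := by ring
    rw [e, norm_div, Complex.norm_real, Real.norm_of_nonneg hδ.le]
    refine div_le_div_of_nonneg_right ?_ hδ.le
    unfold dl
    split_ifs <;> simp
  have hMM : MM C l 40 ≤ 12101 * (C * l) := by
    unfold MM
    have h1 : Real.log (70 + 40) ≤ 109 := by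
      have := Real.log_le_sub_one_of_pos (show (0 : ℝ) < 70 + 40 by norm_num)
      linarith
    have h2 : C * (70 + 40) * (l + Real.log (70 + 40)) ≤ C * (70 + 40) * (l + 109 * l) := by
      refine mul_le_mul_of_nonneg_left ?_ (by linarith)
      linarith
    have h3 : C * 1 ≤ C * l := mul_le_mul_of_nonneg_left hl (by linarith)
    linarith
  have hsumre : (∑ i, 1 / ((1 + δ : ℂ) - ρ i)).re ≤ C * (K / δ) + 1 / δ + 6 * (12101 * (C * l)) * (8 / 40) := by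
    have h1 : ‖∑ i, 1 / ((1 + δ : ℂ) - ρ i)‖ ≤ ‖LSeries (ak b χ) (1 + δ : ℂ) - dl χ / ((1 + δ : ℂ) - 1) + ∑ i, 1 / ((1 + δ : ℂ) - ρ i)‖ +
        (‖LSeries (ak b χ) (1 + δ : ℂ)‖ + ‖dl χ / ((1 + δ : ℂ) - 1)‖) := by
      have e : ∑ i, 1 / ((1 + δ : ℂ) - ρ i) = (LSeries (ak b χ) (1 + δ : ℂ) - dl χ / ((1 + δ : ℂ) - 1) + ∑ i, 1 / ((1 + δ : ℂ) - ρ i)) -
          (LSeries (ak b χ) (1 + δ : ℂ) - dl χ / ((1 + δ : ℂ) - 1)) := by ring
      calc ‖∑ i, 1 / ((1 + δ : ℂ) - ρ i)‖ = ‖(LSeries (ak b χ) (1 + δ : ℂ) - dl χ / ((1 + δ : ℂ) - 1) + ∑ i, 1 / ((1 + δ : ℂ) - ρ i)) -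
          (LSeries (ak b χ) (1 + δ : ℂ) - dl χ / ((1 + δ : ℂ) - 1))‖ := by rw [← e]
        _ ≤ _ := (norm_sub_le _ _).trans (add_le_add le_rfl (norm_sub_le _ _))
    have h2 : 6 * MM C l 40 * (8 / 40) ≤ 6 * (12101 * (C * l)) * (8 / 40) := by linarith
    have h3 := Complex.re_le_norm (∑ i, 1 / ((1 + δ : ℂ) - ρ i))
    linarith
  have hterm : ∀ i, δ * (1 / ‖(1 + δ : ℂ) - ρ i‖ ^ 2) ≤ (1 / ((1 + δ : ℂ) - ρ i)).re := by
    intro i
    rw [one_div, one_div, Complex.inv_re, Complex.normSq_eq_norm_sq, div_eq_mul_inv]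
    refine mul_le_mul_of_nonneg_right ?_ (by positivity)
    rw [Complex.sub_re, hre]
    linarith [hZ.re1 i]
  have hmain : δ * ∑ i, 1 / ‖(1 + δ : ℂ) - ρ i‖ ^ 2 ≤ C * (K / δ) + 1 / δ + 6 * (12101 * (C * l)) * (8 / 40) := by
    refine le_trans ?_ hsumre
    rw [Finset.mul_sum, Complex.re_sum]
    exact Finset.sum_le_sum fun i _ => hterm i
  have h1 : ∑ i, 1 / ‖(1 + δ : ℂ) - ρ i‖ ^ 2 ≤ (C * (K / δ) + 1 / δ + 6 * (12101 * (C * l)) * (8 / 40)) / δ := by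
    rw [le_div_iff₀ hδ]
    linarith
  refine h1.trans ?_
  have hCl : 0 ≤ C * l := by positivity
  have e1 : (C * (K / δ) + 1 / δ + 6 * (12101 * (C * l)) * (8 / 40)) / δ =
      (C * K + 1) * (1 / δ ^ 2) + 6 * 12101 * (8 / 40) * C * (l / δ) := by
    field_simp
  rw [e1]
  have h2 : (C * K + 1) * (1 / δ ^ 2) ≤ max 1 (C * K + 1 + 15000 * C) * (1 / δ ^ 2) := by
    refine mul_le_mul_of_nonneg_right (le_trans ?_ (le_max_right _ _)) (by positivity)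
    linarith
  have h3 : 6 * 12101 * (8 / 40) * C * (l / δ) ≤ max 1 (C * K + 1 + 15000 * C) * (l / δ) := by
    refine mul_le_mul_of_nonneg_right (le_trans ?_ (le_max_right _ _)) (by positivity)
    nlinarith
  linarith

end Pool.Agent.CHE

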