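import Pool.Agent.helper17.CH.SpecB

/-!
# Row `ch:BKB` (project CH, MP_5628fe_nt): one block
-/

set_option autoImplicit false

namespace Pool.Agent.CH

open Finset ArithmeticFunction
open GD (kp ks)

private theorem BKB_kp0 (R m c n : ℕ) (hm : 0 < m) (h : m ≤ R) : kp R m c n = 0 := by
  unfold GD.kp
  rw [Finset.sum_eq_zero]
  · simp
  · intro χ hχ
    rw [Finset.mem_filter] at hχ
    have h1 : χ.conductor ∣ m := χ.conductor_dvd_level
    have := Nat.le_of_dvd hm h1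
    omega

/-- the Cauchy-Schwarz bound, expanded -/
private theorem BKB_main (C l R M K ρ S A B : ℝ) (hC : 0 ≤ C) (hl : 0 ≤ l) (hR : 1 ≤ R)
    (hM : 0 ≤ M) (hK : 0 ≤ K) (hρ : 0 ≤ ρ) (hS : 0 ≤ S) (hA0 : 0 ≤ A) (hB0 : 0 ≤ B)
    (hA : A ≤ M * S) (hB : B ≤ K * S) :
    C * l / R * √((M + C * ρ * R ^ 2) * (K + C * R ^ 2) * A * B) ≤
      C * l * S * (M * K / R + √C * √(M * K * M) + √C * √(M * K * (ρ * K)) +
        C * √(M * K * ρ) * R) := by
  have hR0 : 0 < R := by linarith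
  have hMK : 0 ≤ M * K := mul_nonneg hM hK
  have h1 : √((M + C * ρ * R ^ 2) * (K + C * R ^ 2) * A * B) ≤
      S * (M * K + √C * √(M * K * M) * R + √C * √(M * K * (ρ * K)) * R +
        C * √(M * K * ρ) * R ^ 2) := by
    rw [Real.sqrt_le_left (by positivity)]
    have e1 : √C ^ 2 = C := Real.sq_sqrt hC
    have e2 : √(M * K * M) ^ 2 = M * K * M := Real.sq_sqrt (by positivity)
    have e3 : √(M * K * (ρ * K)) ^ 2 = M * K * (ρ * K) := Real.sq_sqrt (by positivity)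
    have e4 : √(M * K * ρ) ^ 2 = M * K * ρ := Real.sq_sqrt (by positivity)
    have h2 : (M + C * ρ * R ^ 2) * (K + C * R ^ 2) * A * B ≤
        (M + C * ρ * R ^ 2) * (K + C * R ^ 2) * (M * S) * (K * S) := by
      have : 0 ≤ (M + C * ρ * R ^ 2) * (K + C * R ^ 2) := by positivity
      calc (M + C * ρ * R ^ 2) * (K + C * R ^ 2) * A * B
          = (M + C * ρ * R ^ 2) * (K + C * R ^ 2) * (A * B) := by ring
        _ ≤ (M + C * ρ * R ^ 2) * (K + C * R ^ 2) * ((M * S) * (K * S)) := by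
            refine mul_le_mul_of_nonneg_left ?_ this
            exact mul_le_mul hA hB hB0 (by positivity)
        _ = _ := by ring
    refine h2.trans ?_
    set b := √C * √(M * K * M) * R with hb
    set c := √C * √(M * K * (ρ * K)) * R with hc
    set d := C * √(M * K * ρ) * R ^ 2 with hd
    have hb0 : 0 ≤ b := by positivity
    have hc0 : 0 ≤ c := by positivity
    have hd0 : 0 ≤ d := by positivity
    have hb2 : b ^ 2 = C * (M * K * M) * R ^ 2 := by rw [hb, mul_pow, mul_pow, e1, e2]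
    have hc2 : c ^ 2 = C * (M * K * (ρ * K)) * R ^ 2 := by rw [hc, mul_pow, mul_pow, e1, e3]
    have hd2 : d ^ 2 = C ^ 2 * (M * K * ρ) * R ^ 4 := by
      rw [hd, mul_pow, mul_pow, e4]
      ring
    have h3 : (M + C * ρ * R ^ 2) * (K + C * R ^ 2) * (M * S) * (K * S) =
        S ^ 2 * ((M * K) ^ 2 + b ^ 2 + c ^ 2 + d ^ 2) := by
      rw [hb2, hc2, hd2]
      ring
    rw [h3, mul_pow S]
    refine mul_le_mul_of_nonneg_left ?_ (sq_nonneg S)
    nlinarith [mul_nonneg hMK hb0, mul_nonneg hMK hc0, mul_nonneg hMK hd0, mul_nonneg hb0 hc0,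
      mul_nonneg hb0 hd0, mul_nonneg hc0 hd0]
  calc C * l / R * √((M + C * ρ * R ^ 2) * (K + C * R ^ 2) * A * B) ≤
      C * l / R * (S * (M * K + √C * √(M * K * M) * R + √C * √(M * K * (ρ * K)) * R +
        C * √(M * K * ρ) * R ^ 2)) := mul_le_mul_of_nonneg_left h1 (by positivity)
    _ = _ := by
      field_simp

private theorem BKB_sq1 (n M K κ : ℝ) (hn : 1 ≤ n) (hM : 0 ≤ M) (hK : n ^ κ ≤ K)
    (hMK : M * K ≤ 8 * n ^ 3) : √(M * K * M) ≤ 8 * n ^ (3 - κ / 2) := by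
  have hn0 : 0 < n := by linarith
  have hK0 : 0 < K := lt_of_lt_of_le (Real.rpow_pos_of_pos hn0 κ) hK
  rw [Real.sqrt_le_left (by positivity)]
  have h1 : M * n ^ κ ≤ 8 * n ^ 3 := (mul_le_mul_of_nonneg_left hK hM).trans hMK
  have h2 : M ≤ 8 * n ^ (3 - κ) := by
    have e : n ^ (3 - κ) * n ^ κ = n ^ 3 := by
      rw [← Real.rpow_add hn0, sub_add_cancel, ← Real.rpow_natCast]
      norm_num
    have hp : 0 < n ^ κ := Real.rpow_pos_of_pos hn0 κ
    by_contra hc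
    push Not at hc
    have := mul_lt_mul_of_pos_right hc hp
    nlinarith
  have e : (8 * n ^ (3 - κ / 2)) ^ 2 = 8 * n ^ 3 * (8 * n ^ (3 - κ)) := by
    have e1 : n ^ (3 - κ / 2) * n ^ (3 - κ / 2) = n ^ 3 * n ^ (3 - κ) := by
      rw [← Real.rpow_add hn0, ← Real.rpow_natCast n 3, ← Real.rpow_add hn0]
      congr 1
      push_cast
      ring
    calc (8 * n ^ (3 - κ / 2)) ^ 2 = 64 * (n ^ (3 - κ / 2) * n ^ (3 - κ / 2)) := by ring
      _ = _ := by rw [e1]; ring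
  rw [e]
  exact mul_le_mul hMK h2 hM (by positivity)

private theorem BKB_sq2 (n M K ρ ε : ℝ) (hn : 1 ≤ n) (hK : 0 ≤ K) (hKM : K ≤ M)
    (hMK : M * K ≤ 8 * n ^ 3) (hρ0 : 0 ≤ ρ) (hρ : ρ ≤ 2 * n ^ (1 + ε)) :
    √(M * K * (ρ * K)) ≤ 7 * n ^ (11 / 4 + ε / 2) := by
  have hn0 : 0 < n := by linarith
  rw [Real.sqrt_le_left (by positivity)]
  have h32 : (n ^ (3 / 2 : ℝ)) ^ 2 = n ^ 3 := by
    rw [← Real.rpow_natCast, ← Real.rpow_mul hn0.le, ← Real.rpow_natCast n 3]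
    norm_num
  have hp : 0 < n ^ (3 / 2 : ℝ) := Real.rpow_pos_of_pos hn0 _
  have hK3 : K ≤ 3 * n ^ (3 / 2 : ℝ) := by
    have h1 : K ^ 2 ≤ (3 * n ^ (3 / 2 : ℝ)) ^ 2 := by
      rw [mul_pow, h32]
      nlinarith [mul_le_mul_of_nonneg_right hKM hK, pow_pos hn0 3]
    exact (pow_le_pow_iff_left₀ hK (by positivity) two_ne_zero).1 h1
  have hp1 : 0 < n ^ (1 + ε) := Real.rpow_pos_of_pos hn0 _
  have h2 : ρ * K ≤ 2 * n ^ (1 + ε) * (3 * n ^ (3 / 2 : ℝ)) := mul_le_mul hρ hK3 hK (by positivity)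
  have e : (7 * n ^ (11 / 4 + ε / 2)) ^ 2 = 49 * (n ^ 3 * (n ^ (1 + ε) * n ^ (3 / 2 : ℝ))) := by
    have e1 : n ^ (11 / 4 + ε / 2) * n ^ (11 / 4 + ε / 2) = n ^ 3 * (n ^ (1 + ε) * n ^ (3 / 2 : ℝ)) := by
      rw [← Real.rpow_natCast n 3, ← Real.rpow_add hn0, ← Real.rpow_add hn0, ← Real.rpow_add hn0]
      congr 1
      push_cast
      ring
    calc (7 * n ^ (11 / 4 + ε / 2)) ^ 2 = 49 * (n ^ (11 / 4 + ε / 2) * n ^ (11 / 4 + ε / 2)) := by ring
      _ = _ := by rw [e1]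
  rw [e]
  have h3 : M * K * (ρ * K) ≤ 8 * n ^ 3 * (2 * n ^ (1 + ε) * (3 * n ^ (3 / 2 : ℝ))) :=
    mul_le_mul hMK h2 (by positivity) (by positivity)
  have h4 : 0 < n ^ 3 * (n ^ (1 + ε) * n ^ (3 / 2 : ℝ)) := by positivity
  nlinarith

private theorem BKB_sq3 (n M K ρ R ε : ℝ) (hn : 1 ≤ n)
    (hMK : M * K ≤ 8 * n ^ 3) (hρ0 : 0 ≤ ρ) (hρ : ρ ≤ 2 * n ^ (1 + ε)) (hR0 : 0 ≤ R)
    (hR : R ≤ 30 * n ^ (1 - 2 * ε)) :
    √(M * K * ρ) * R ≤ 120 * n ^ (3 - 3 * ε / 2) := by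
  have hn0 : 0 < n := by linarith
  have h1 : √(M * K * ρ) ≤ 4 * n ^ (2 + ε / 2) := by
    rw [Real.sqrt_le_left (by positivity)]
    have e : (4 * n ^ (2 + ε / 2)) ^ 2 = 8 * n ^ 3 * (2 * n ^ (1 + ε)) := by
      have e1 : n ^ (2 + ε / 2) * n ^ (2 + ε / 2) = n ^ 3 * n ^ (1 + ε) := by
        rw [← Real.rpow_natCast n 3, ← Real.rpow_add hn0, ← Real.rpow_add hn0]
        congr 1
        push_cast
        ring
      calc (4 * n ^ (2 + ε / 2)) ^ 2 = 16 * (n ^ (2 + ε / 2) * n ^ (2 + ε / 2)) := by ring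
        _ = _ := by rw [e1]; ring
    rw [e]
    exact mul_le_mul hMK hρ hρ0 (by positivity)
  calc √(M * K * ρ) * R ≤ 4 * n ^ (2 + ε / 2) * (30 * n ^ (1 - 2 * ε)) :=
        mul_le_mul h1 hR hR0 (by positivity)
    _ = 120 * (n ^ (2 + ε / 2) * n ^ (1 - 2 * ε)) := by ring
    _ = 120 * n ^ (3 - 3 * ε / 2) := by
        rw [← Real.rpow_add hn0]
        congr 2
        ring

theorem BKB (h1 : PTN_stmt) (h2 : ERR_stmt) : BKB_stmt := by
  intro ε κ E hε hε1 hκ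
  obtain ⟨C₁, hC₁, hP⟩ := h1
  obtain ⟨N₁, hE⟩ := h2 ε hε (by linarith)
  have hmin : 0 < min κ ε := lt_min hκ hε
  set δ : ℝ := min κ ε / 8 with hδ
  have hδ0 : 0 < δ := by positivity
  have hδκ : 8 * δ ≤ κ := by rw [hδ]; linarith [min_le_left κ ε]
  have hδε : 8 * δ ≤ ε := by rw [hδ]; linarith [min_le_right κ ε]
  set D : ℝ := 2 * C₁ * (8 * √C₁ + 7 * √C₁ + 120 * C₁) + 2 with hD
  have hD0 : 0 < D := by positivity
  have hlo := (isLittleO_log_rpow_rpow_atTop ((E + 1 : ℕ) : ℝ) hδ0).bound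
    (show 0 < 1 / D by positivity)
  have hlo2 := tendsto_natCast_atTop_atTop.eventually (hlo.and
    (Real.tendsto_log_atTop.eventually (Filter.eventually_ge_atTop 1)))
  obtain ⟨N₂, hN₂⟩ := Filter.eventually_atTop.1 hlo2
  refine ⟨16 * C₁, δ, max (max N₁ N₂) 2, by positivity, hδ0, ?_⟩
  intro N hN c hc r hr R M K α β hR hKM hK hMK hα hβ hα2 hβ2
  have hNN1 : N₁ ≤ N := le_trans (le_trans (le_max_left _ _) (le_max_left _ _)) hN
  have hNN2 : N₂ ≤ N := le_trans (le_trans (le_max_right _ _) (le_max_left _ _)) hN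
  have hN2 : 2 ≤ N := le_trans (le_max_right _ _) hN
  obtain ⟨hb1, hb2⟩ := hN₂ N hNN2
  set n : ℝ := (N : ℝ) with hn
  set L : ℝ := Real.log n with hL
  have hn1 : 1 ≤ n := by rw [hn]; exact_mod_cast (by omega : 1 ≤ N)
  have hn0 : 0 < n := by linarith
  have hLL : D * L ^ (E + 1) ≤ n ^ δ := by
    rw [Real.norm_of_nonneg (by positivity), Real.norm_of_nonneg (by positivity),
      Real.rpow_natCast] at hb1
    have := mul_le_mul_of_nonneg_left hb1 hD0.le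
    rwa [← mul_assoc, mul_one_div_cancel hD0.ne', one_mul] at this
  have hQ1 : 1 ≤ n ^ (1 - 2 * ε) := Real.one_le_rpow hn1 (by linarith)
  have hQn : n ^ (1 - 2 * ε) ≤ n := by
    calc n ^ (1 - 2 * ε) ≤ n ^ (1 : ℝ) := Real.rpow_le_rpow_of_exponent_le hn1 (by linarith)
      _ = n := Real.rpow_one n
  have hLp : 0 ≤ L := by linarith
  have hRr : (1 : ℝ) ≤ (R : ℝ) := by exact_mod_cast hR
  have hRHS : 0 ≤ 16 * C₁ * n ^ 3 * L ^ (E + 1) / R + n ^ (3 - δ) := by positivity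
  by_cases hRQ : (R : ℝ) ≤ 30 * n ^ (1 - 2 * ε)
  · have hρge : n ^ (1 + ε) ≤ ((⌈n ^ (1 + ε)⌉₊ : ℕ) : ℝ) := Nat.le_ceil _
    have hnε : n ≤ n ^ (1 + ε) := by
      calc n = n ^ (1 : ℝ) := (Real.rpow_one n).symm
        _ ≤ n ^ (1 + ε) := Real.rpow_le_rpow_of_exponent_le hn1 (by linarith)
    have hρ2 : 2 ≤ ⌈n ^ (1 + ε)⌉₊ := by
      have : (2 : ℝ) ≤ ((⌈n ^ (1 + ε)⌉₊ : ℕ) : ℝ) := by
        have : (2 : ℝ) ≤ n := by rw [hn]; exact_mod_cast hN2
        linarith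
      exact_mod_cast this
    have hρle : ((⌈n ^ (1 + ε)⌉₊ : ℕ) : ℝ) ≤ 2 * n ^ (1 + ε) := by
      have := (Nat.ceil_lt_add_one (show (0 : ℝ) ≤ n ^ (1 + ε) by positivity)).le
      linarith
    set ρ : ℕ := ⌈n ^ (1 + ε)⌉₊ with hρdef
    have hKr : n ^ κ ≤ (K : ℝ) := hK
    have hK1 : (1 : ℝ) ≤ (K : ℝ) := le_trans (Real.one_le_rpow hn1 hκ.le) hKr
    have hK1n : 1 ≤ K := by exact_mod_cast hK1
    have hKMr : (K : ℝ) ≤ (M : ℝ) := by exact_mod_cast hKM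
    have hMKr : (M : ℝ) * (K : ℝ) ≤ 8 * n ^ 3 := by rw [hn]; exact_mod_cast hMK
    have hPT := hP N c (n ^ (1 - 2 * ε)) R ρ r α β M (2 * M) K (2 * K) (by omega) hc hQ1 hR hρ2
      (by omega) (by omega) le_rfl (by omega)
    have hER := hE N hNN1 (n ^ (1 - 2 * ε)) R ρ r α β M (2 * M) K (2 * K) hQ1 hQn hR hρge hr hα hβ
    have eM : 2 * M - M = M := by omega
    have eK : 2 * K - K = K := by omega
    rw [eM, eK] at hPT
    have hlog : 1 + Real.log (n ^ (1 - 2 * ε)) ≤ 2 * L := by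
      rw [Real.log_rpow hn0]
      nlinarith
    have hlog0 : 0 ≤ 1 + Real.log (n ^ (1 - 2 * ε)) := by
      have := Real.log_nonneg hQ1
      linarith
    have hMA := BKB_main C₁ (1 + Real.log (n ^ (1 - 2 * ε))) R M K ρ (L ^ E)
      (∑ a ∈ Ioc M (2 * M), α a ^ 2) (∑ b ∈ Ioc K (2 * K), β b ^ 2) hC₁.le hlog0 hRr
      (by positivity) (by positivity) (by positivity) (by positivity)
      (Finset.sum_nonneg fun _ _ => sq_nonneg _) (Finset.sum_nonneg fun _ _ => sq_nonneg _) hα2 hβ2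
    have s1 := BKB_sq1 n M K κ hn1 (by positivity) hKr hMKr
    have s2 := BKB_sq2 n M K ρ ε hn1 (by positivity) hKMr hMKr (by positivity) hρle
    have s3 := BKB_sq3 n M K ρ R ε hn1 hMKr (by positivity) hρle
      (by positivity) hRQ
    have t1 : n ^ (3 - κ / 2) ≤ n ^ (3 - 2 * δ) :=
      Real.rpow_le_rpow_of_exponent_le hn1 (by linarith)
    have t2 : n ^ (11 / 4 + ε / 2) ≤ n ^ (3 - 2 * δ) :=
      Real.rpow_le_rpow_of_exponent_le hn1 (by linarith)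
    have t3 : n ^ (3 - 3 * ε / 2) ≤ n ^ (3 - 2 * δ) :=
      Real.rpow_le_rpow_of_exponent_le hn1 (by linarith)
    have t4 : n ^ (3 - ε / 4) ≤ n ^ (3 - 2 * δ) :=
      Real.rpow_le_rpow_of_exponent_le hn1 (by linarith)
    have hX0 : 0 < n ^ (3 - 2 * δ) := Real.rpow_pos_of_pos hn0 _
    have hc0 : 0 ≤ √C₁ := Real.sqrt_nonneg _
    have hbr : (M : ℝ) * K / R + √C₁ * √((M : ℝ) * K * M) + √C₁ * √((M : ℝ) * K * (ρ * K)) +
        C₁ * √((M : ℝ) * K * ρ) * R ≤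
        8 * n ^ 3 / R + (8 * √C₁ + 7 * √C₁ + 120 * C₁) * n ^ (3 - 2 * δ) := by
      have u1 : (M : ℝ) * K / R ≤ 8 * n ^ 3 / R := by gcongr
      have u2 : √C₁ * √((M : ℝ) * K * M) ≤ √C₁ * (8 * n ^ (3 - 2 * δ)) := by
        refine mul_le_mul_of_nonneg_left ?_ hc0
        linarith
      have u3 : √C₁ * √((M : ℝ) * K * (ρ * K)) ≤ √C₁ * (7 * n ^ (3 - 2 * δ)) := by
        refine mul_le_mul_of_nonneg_left ?_ hc0
        linarith
      have u4 : C₁ * √((M : ℝ) * K * ρ) * R ≤ C₁ * (120 * n ^ (3 - 2 * δ)) := by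
        rw [mul_assoc]
        refine mul_le_mul_of_nonneg_left ?_ hC₁.le
        linarith
      linarith
    have hcoef : C₁ * (1 + Real.log (n ^ (1 - 2 * ε))) * L ^ E ≤ 2 * C₁ * L ^ (E + 1) := by
      have hLE : 0 ≤ C₁ * L ^ E := by positivity
      have := mul_le_mul_of_nonneg_left hlog hLE
      rw [pow_succ]
      linarith
    have hbr0 : 0 ≤ 8 * n ^ 3 / R + (8 * √C₁ + 7 * √C₁ + 120 * C₁) * n ^ (3 - 2 * δ) := by positivity
    have hcoef0 : 0 ≤ C₁ * (1 + Real.log (n ^ (1 - 2 * ε))) * L ^ E := by positivity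
    have hMA2 := hMA.trans ((mul_le_mul_of_nonneg_left hbr hcoef0).trans
      (mul_le_mul_of_nonneg_right hcoef hbr0))
    have hfin : (2 * C₁ * (8 * √C₁ + 7 * √C₁ + 120 * C₁) * L ^ (E + 1) + 2) * n ^ (3 - 2 * δ) ≤
        n ^ (3 - δ) := by
      have e : n ^ (3 - δ) = n ^ δ * n ^ (3 - 2 * δ) := by
        rw [← Real.rpow_add hn0]
        congr 1
        ring
      rw [e]
      refine mul_le_mul_of_nonneg_right ?_ hX0.le
      refine le_trans ?_ hLL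
      rw [hD]
      have : 1 ≤ L ^ (E + 1) := one_le_pow₀ hb2
      linarith
    calc _ ≤ _ := hPT
      _ ≤ 2 * C₁ * L ^ (E + 1) *
          (8 * n ^ 3 / R + (8 * √C₁ + 7 * √C₁ + 120 * C₁) * n ^ (3 - 2 * δ)) +
          2 * n ^ (3 - 2 * δ) := add_le_add hMA2 (by linarith)
      _ = 16 * C₁ * n ^ 3 * L ^ (E + 1) / R +
          (2 * C₁ * (8 * √C₁ + 7 * √C₁ + 120 * C₁) * L ^ (E + 1) + 2) * n ^ (3 - 2 * δ) := by ring
      _ ≤ _ := by linarith
  · push Not at hRQ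
    refine le_trans (le_of_eq ?_) hRHS
    refine Finset.sum_eq_zero fun m hm => ?_
    unfold Mo at hm
    rw [Finset.mem_filter, Finset.mem_Icc] at hm
    have hm1 : (m : ℝ) ≤ n ^ (1 - 2 * ε) := (Nat.le_floor_iff (by positivity)).1 hm.1.2
    have hmR : 30 * m ≤ R := by
      have : (30 * m : ℝ) ≤ R := by linarith
      exact_mod_cast this
    rw [abs_eq_zero]
    refine Finset.sum_eq_zero fun a _ => Finset.sum_eq_zero fun b _ => ?_
    rw [BKB_kp0 R (30 * m) (r m) (a * b) (by omega) hmR, mul_zero, mul_zero]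

end Pool.Agent.CH
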