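import Pool.Agent.helper17.CH.SpecV
import Mathlib.RingTheory.MvPolynomial.Symmetric.NewtonIdentities
import Mathlib.RingTheory.Polynomial.Vieta

/-!
# Row `ch:LINA` (project CH, MP_5628fe_nt): Linnik's lemma, the case of full congruences
-/

set_option autoImplicit false

namespace Pool.Agent.CH

open Finset

private theorem LINA_esymm (k p : ℕ) (hp : p.Prime) (hk : k < p) (m m' : Fin k → ZMod (p ^ k))
    (h : ∀ j ∈ Icc 1 k, ∑ i, m i ^ j = ∑ i, m' i ^ j) : ∀ n, n ≤ k →
    MvPolynomial.aeval m (MvPolynomial.esymm (Fin k) ℤ n) =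
      MvPolynomial.aeval m' (MvPolynomial.esymm (Fin k) ℤ n) := by
  intro n
  induction n using Nat.strong_induction_on with
  | _ n ih =>
    intro hn
    rcases Nat.eq_zero_or_pos n with h0 | h0
    · subst h0
      simp
    · have e := MvPolynomial.mul_esymm_eq_sum (Fin k) ℤ n
      have e1 := congrArg (MvPolynomial.aeval m) e
      have e2 := congrArg (MvPolynomial.aeval m') e
      have hu : IsUnit ((n : ℕ) : ZMod (p ^ k)) := by
        rw [ZMod.isUnit_iff_coprime]
        exact Nat.Coprime.pow_right k ((Nat.Prime.coprime_iff_not_dvd hp).2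
          (fun hd => absurd (Nat.le_of_dvd h0 hd) (by omega))).symm
      simp only [map_mul, map_natCast, map_pow, map_neg, map_one, map_sum, MvPolynomial.psum,
        MvPolynomial.aeval_X] at e1 e2
      refine hu.mul_left_cancel ?_
      rw [e1, e2]
      congr 1
      refine Finset.sum_congr rfl fun a ha => ?_
      rw [Finset.mem_filter, Finset.HasAntidiagonal.mem_antidiagonal] at ha
      rw [ih a.1 ha.2 (by omega), h a.2 (Finset.mem_Icc.2 (by omega))]

private theorem LINA_dvd (k p : ℕ) (hp : p.Prime) (hk : k < p) (m m' : Fin k → ℤ)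
    (h : ∀ j ∈ Icc 1 k, (p : ℤ) ^ k ∣ ∑ i, m i ^ j - ∑ i, m' i ^ j) (r : Fin k) :
    (p : ℤ) ^ k ∣ ∏ i, (m' r - m i) := by
  have hz : ∀ j ∈ Icc 1 k, ∑ i, ((m i : ℤ) : ZMod (p ^ k)) ^ j = ∑ i, ((m' i : ℤ) : ZMod (p ^ k)) ^ j := by
    intro j hj
    have h1 := h j hj
    have h2 : (((p ^ k : ℕ) : ℤ)) ∣ ∑ i, m i ^ j - ∑ i, m' i ^ j := by
      push_cast
      exact h1
    rw [← ZMod.intCast_zmod_eq_zero_iff_dvd] at h2
    push_cast at h2
    exact sub_eq_zero.1 h2
  have hE := LINA_esymm k p hp hk (fun i => ((m i : ℤ) : ZMod (p ^ k)))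
    (fun i => ((m' i : ℤ) : ZMod (p ^ k))) hz
  have hP : ((Finset.univ.val.map (fun i : Fin k => ((m i : ℤ) : ZMod (p ^ k)))).map
      fun t => Polynomial.X - Polynomial.C t).prod =
      ((Finset.univ.val.map (fun i : Fin k => ((m' i : ℤ) : ZMod (p ^ k)))).map
      fun t => Polynomial.X - Polynomial.C t).prod := by
    rw [Multiset.prod_X_sub_X_eq_sum_esymm, Multiset.prod_X_sub_X_eq_sum_esymm]
    rw [Multiset.card_map, Multiset.card_map]
    refine Finset.sum_congr rfl fun j hj => ?_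
    have hj' : j ≤ k := by
      have := Finset.mem_range.1 hj
      simp at this
      omega
    have := hE j hj'
    rw [MvPolynomial.aeval_esymm_eq_multiset_esymm, MvPolynomial.aeval_esymm_eq_multiset_esymm] at this
    rw [this]
  rw [Multiset.map_map, Multiset.map_map] at hP
  have hP' : ∏ i : Fin k, (Polynomial.X - Polynomial.C ((m i : ℤ) : ZMod (p ^ k))) =
      ∏ i : Fin k, (Polynomial.X - Polynomial.C ((m' i : ℤ) : ZMod (p ^ k))) := hP
  have hV := congrArg (Polynomial.eval ((m' r : ℤ) : ZMod (p ^ k))) hP'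
  rw [Polynomial.eval_prod, Polynomial.eval_prod] at hV
  simp only [Polynomial.eval_sub, Polynomial.eval_X, Polynomial.eval_C] at hV
  rw [Finset.prod_eq_zero (f := fun i => ((m' r : ℤ) : ZMod (p ^ k)) - ((m' i : ℤ) : ZMod (p ^ k)))
    (Finset.mem_univ r) (sub_self _)] at hV
  have h3 : (((p ^ k : ℕ) : ℤ)) ∣ ∏ i, (m' r - m i) := by
    rw [← ZMod.intCast_zmod_eq_zero_iff_dvd]
    push_cast
    exact hV
  push_cast at h3
  exact h3

private theorem LINA_match (k p : ℕ) (hp : p.Prime) (hk : k < p) (a : ℤ) (m m' : Fin k → ℤ)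
    (hm : ∀ i, m i ∈ Ioc a (a + (p : ℤ) ^ k)) (hm' : ∀ i, m' i ∈ Ioc a (a + (p : ℤ) ^ k))
    (hi : ∀ i i' : Fin k, i ≠ i' → ¬ (p : ℤ) ∣ m i - m i')
    (h : ∀ j ∈ Icc 1 k, (p : ℤ) ^ k ∣ ∑ i, m i ^ j - ∑ i, m' i ^ j) (r : Fin k) :
    ∃ i, m' r = m i := by
  have hpz : Prime (p : ℤ) := Nat.prime_iff_prime_int.1 hp
  have hD := LINA_dvd k p hp hk m m' h r
  have hk0 : k ≠ 0 := fun h0 => by
    subst h0
    exact r.elim0
  have hp1 : (p : ℤ) ∣ ∏ i, (m' r - m i) := (dvd_pow_self _ hk0).trans hD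
  obtain ⟨i, -, hdi⟩ := (hpz.dvd_finsetProd_iff _).1 hp1
  refine ⟨i, ?_⟩
  rw [← Finset.mul_prod_erase Finset.univ _ (Finset.mem_univ i)] at hD
  have hcop : IsCoprime ((p : ℤ) ^ k) (∏ i' ∈ Finset.univ.erase i, (m' r - m i')) := by
    refine IsCoprime.pow_left (IsCoprime.prod_right fun i' hi' => ?_)
    rw [Prime.coprime_iff_not_dvd hpz]
    intro hd
    refine hi i' i (Finset.ne_of_mem_erase hi') ?_
    have := dvd_sub hdi hd
    have e : m' r - m i - (m' r - m i') = m i' - m i := by ring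
    rwa [e] at this
  have hd : (p : ℤ) ^ k ∣ m' r - m i := hcop.dvd_of_dvd_mul_right hD
  have h1 := Finset.mem_Ioc.1 (hm i)
  have h2 := Finset.mem_Ioc.1 (hm' r)
  have h3 : m' r - m i = 0 := by
    refine Int.eq_zero_of_abs_lt_dvd hd ?_
    rw [abs_lt]
    constructor <;> linarith [h1.1, h1.2, h2.1, h2.2]
  linarith

theorem LINA : LINA_stmt := by
  intro k p a h hp hk
  set S := (Fintype.piFinset fun _ : Fin k => Ioc a (a + (p : ℤ) ^ k)).filter fun m =>
    (∀ i i' : Fin k, i ≠ i' → ¬ (p : ℤ) ∣ m i - m i') ∧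
      ∀ j ∈ Icc 1 k, (p : ℤ) ^ k ∣ ∑ i, m i ^ j - h j with hS
  rcases S.eq_empty_or_nonempty with h0 | ⟨m, hm⟩
  · rw [h0]
    simp
  · have hsub : S ⊆ (Finset.univ : Finset (Equiv.Perm (Fin k))).image fun (σ : Equiv.Perm (Fin k)) (i : Fin k) => m (σ i) := by
      intro m' hm'
      rw [hS, Finset.mem_filter, Fintype.mem_piFinset] at hm hm'
      have hd : ∀ j ∈ Icc 1 k, (p : ℤ) ^ k ∣ ∑ i, m i ^ j - ∑ i, m' i ^ j := by
        intro j hj
        have := dvd_sub (hm.2.2 j hj) (hm'.2.2 j hj)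
        have e : ∑ i, m i ^ j - h j - (∑ i, m' i ^ j - h j) = ∑ i, m i ^ j - ∑ i, m' i ^ j := by ring
        rwa [e] at this
      choose f hf using fun r => LINA_match k p hp hk a m m' hm.1 hm'.1 hm.2.1 hd r
      have hinj : Function.Injective f := by
        intro r r' hr
        by_contra hne
        refine hm'.2.1 r r' hne ?_
        rw [hf r, hf r', hr, sub_self]
        exact dvd_zero _
      rw [Finset.mem_image]
      refine ⟨Equiv.ofBijective f (Finite.injective_iff_bijective.1 hinj), Finset.mem_univ _, ?_⟩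
      funext r
      exact (hf r).symm
    calc #S ≤ _ := Finset.card_le_card hsub
      _ ≤ _ := Finset.card_image_le
      _ = k.factorial := by rw [Finset.card_univ, Fintype.card_perm, Fintype.card_fin]

end Pool.Agent.CH
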